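import Pool.Agent.Helper20_PP.MovCore
import Pool.Agent.Helper74_PP.Xfs

/-!
# Squad PP, part J: INN (J4.1), units are local
-/

open scoped BigOperators

set_option linter.unusedSectionVars false

noncomputable section

namespace Pool.Agent.PP.H62

open Pool.Agent.PP Pool.Agent.PP.H20

section inn

variable {ℓ : ℕ} {F X : Type} [Field F] [Group X] [Finite X] {Y R S : Subgroup X} {f : X → F}

/-- the coset of a unit meets the centraliser of `R` -/
theorem meets (hF : GoodF ℓ F) (hL : Loc ℓ Y R S) (hne : br R f ≠ 0) {g : X}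
    {u u' : X → F} (hu : IsUnitOver f Y g u u') :
    ∃ n ∈ Y, g * n ∈ Subgroup.centralizer (R : Set X) := by
  classical
  have h1 : mulF (br R u) (br R u') = br R f := by
    rw [← br_mulF_Y hF hL hu.left.inv hu.right.inv, hu.mul]
  have h2 : br R u ≠ 0 := by
    intro h
    apply hne
    rw [← h1, h]
    apply toMA_injective
    rw [toMA_mulF, toMA_zero, zero_mul]
  obtain ⟨h, hh⟩ := Function.ne_iff.1 h2
  have h3 : h ∈ Subgroup.centralizer (R : Set X) := by
    by_contra hc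
    apply hh
    simp only [br, if_neg hc]
    rfl
  have h4 : g⁻¹ * h ∈ Y := by
    by_contra hc
    apply hh
    simp only [br, if_pos h3]
    exact hu.left.supp h hc
  exact ⟨g⁻¹ * h, h4, by rwa [mul_inv_cancel_left]⟩

/-- the characters of `Y ∩ S` in the block are invariant -/
theorem inv_IBr (hF : GoodF ℓ F) (hf : SBlk Y f) (hY : Y.Normal) (hL : Loc ℓ Y R S) {j : X}
    (hj : j ∈ Subgroup.centralizer (R : Set X)) {v v' : X → F} (hv : IsUnitOver f Y j v v')
    {φ : ↥(Y ⊓ S) → F} (hφ : φ ∈ IBr F ↥(Y ⊓ S))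
    (hact : actF (fun t : ↥(Y ⊓ S) => f t) φ = φ) (n n' : ↥(Y ⊓ S))
    (hn : (n' : X) = j * n * j⁻¹) : φ n' = φ n := by
  obtain ⟨k, ρ, hρ, rfl⟩ := hφ
  have hone : ev ρ (fun t : ↥(Y ⊓ S) => br R f t) = 1 := ev_br_one hF hf hL hρ hact
  have hUD := unit_UD hF hf hY hL hj hv
  have hU := UD_unit hUD hone
  have hc := UD_cj hUD ρ n n' hn
  obtain ⟨r, hr⟩ := hU
  rw [← hr] at hc
  have h1 : ρ n' = (r : Matrix (Fin k) (Fin k) F) * ρ n * ((r⁻¹ : (Matrix (Fin k) (Fin k) F)ˣ) :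
      Matrix (Fin k) (Fin k) F) := by
    rw [hc, mul_assoc, Units.mul_inv, mul_one]
  change (ρ n').trace = (ρ n).trace
  rw [h1, Matrix.trace_mul_comm, ← mul_assoc, Units.inv_mul, one_mul]

end inn

/-- INN -/
theorem inn : InnStmt := by
  intro ℓ F _ hF X _ _ Y hY f hf R S hL hne
  have hmeet : ∀ g ∈ XF f Y, ∃ n ∈ Y, g * n ∈ Subgroup.centralizer (R : Set X) := by
    intro g hg
    obtain ⟨u, u', hu⟩ := (J74.mem_XF hY hf g).1 hg
    exact meets hF hL hne hu
  refine ⟨hmeet, ?_, ?_⟩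
  · intro M hYM hM
    have h1 : M ⊓ S ⊔ Y = M := by
      apply le_antisymm
      · exact sup_le inf_le_left hYM
      · intro g hg
        obtain ⟨n, hn, hgn⟩ := hmeet g (hM hg)
        have h2 : g * n ∈ M ⊓ S := ⟨M.mul_mem hg (hYM hn), hL.cent hgn⟩
        have h3 := Subgroup.mul_mem_sup h2 (Y.inv_mem hn)
        rwa [mul_inv_cancel_right] at h3
    have h2 : Y.relIndex M = Y.relIndex (M ⊓ S) := by
      conv_lhs => rw [← h1]
      exact Subgroup.relIndex_sup_right _ _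
    have h3 : Nat.card ↥(M ⊓ S) = Y.relIndex (M ⊓ S) * Nat.card ↥(Y ⊓ (M ⊓ S)) := by
      rw [← Subgroup.inf_relIndex_right Y (M ⊓ S)]
      have h4 := Subgroup.card_mul_index ((Y ⊓ (M ⊓ S)).subgroupOf (M ⊓ S))
      rw [mul_comm] at h4
      rw [← h4]
      congr 1
      exact Nat.card_congr (Subgroup.subgroupOfEquivOfLe inf_le_right).toEquiv
    have h4 : Y ⊓ (M ⊓ S) = Y ⊓ S := by
      rw [← inf_assoc, inf_eq_left.2 hYM]
    rw [h3, h4, h2]
  · intro φ hφ hact g hg hgS n n' hn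
    obtain ⟨m, hm, hgm⟩ := hmeet g hg
    have hmS : m ∈ S := by
      have := S.mul_mem (S.inv_mem hgS) (hL.cent hgm)
      rwa [inv_mul_cancel_left] at this
    have hgmX : g * m ∈ XF f Y := (XF f Y).mul_mem hg (J74.le_XF hY hf hm)
    obtain ⟨v, v', hv⟩ := (J74.mem_XF hY hf (g * m)).1 hgmX
    obtain ⟨m0, hm0⟩ : ∃ m0 : ↥(Y ⊓ S), (m0 : X) = m := ⟨⟨m, hm, hmS⟩, rfl⟩
    have h1 := inv_IBr hF hf hY hL hgm hv hφ hact (m0⁻¹ * n * m0) n' (by
      rw [hn]
      push_cast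
      rw [hm0]
      group)
    rw [h1]
    obtain ⟨k, ρ, -, rfl⟩ := hφ
    change (ρ (m0⁻¹ * n * m0)).trace = (ρ n).trace
    rw [map_mul, map_mul, Matrix.trace_mul_comm, ← mul_assoc, ← map_mul, mul_inv_cancel, map_one,
      one_mul]

end Pool.Agent.PP.H62
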