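import Pool.Agent.Helper20_PP.MovCore
import Pool.Agent.Helper74_PP.Xfs

/-!
# Squad PP, part J: SCU and STA (J4.4, J4.5), the scalars of the pair sums
-/

open scoped BigOperators

set_option linter.unusedSectionVars false

noncomputable section

namespace Pool.Agent.PP.H62

open Pool.Agent.PP Pool.Agent.PP.H20

section imp

variable {ℓ : ℕ} {F X : Type} [Field F] [Group X] [Finite X] {L : Subgroup X} {n : ℕ}
  {ρ : L →* Matrix (Fin n) (Fin n) F}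

/-- existence of the implementing matrix -/
theorem imp_exists (hF : GoodF ℓ F) (hρ : IsIrr ρ) {x : X}
    (hx : ∀ g, g ∈ L → x * g * x⁻¹ ∈ L)
    (htr : ∀ g g' : L, (g' : X) = x * g * x⁻¹ → tr ρ g' = tr ρ g) : ∃ A, ImpJ ρ x A := by
  let e : L → L := fun g => ⟨x * g * x⁻¹, hx g g.2⟩
  have he : Function.Injective e := by
    intro g g' h
    have h1 : x * (g : X) * x⁻¹ = x * (g' : X) * x⁻¹ := congrArg Subtype.val h
    exact Subtype.ext (mul_left_cancel (mul_right_cancel h1))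
  have hes : Function.Surjective e := Finite.surjective_of_injective he
  let σ : L →* Matrix (Fin n) (Fin n) F :=
    { toFun := fun g => ρ (e g)
      map_one' := by
        have : e 1 = 1 := Subtype.ext (by show x * 1 * x⁻¹ = 1; group)
        rw [this, map_one]
      map_mul' := fun g h => by
        have : e (g * h) = e g * e h := Subtype.ext (by
          show x * ((g : X) * h) * x⁻¹ = x * g * x⁻¹ * (x * h * x⁻¹)
          group)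
        rw [this, map_mul] }
  have hσv : ∀ g, σ g = ρ (e g) := fun _ => rfl
  have hσ : IsIrr σ := by
    refine ⟨hρ.1, ?_⟩
    have : Set.range σ = Set.range ρ := by
      ext M
      constructor
      · rintro ⟨g, rfl⟩; exact ⟨e g, rfl⟩
      · rintro ⟨g, rfl⟩
        obtain ⟨g0, rfl⟩ := hes g
        exact ⟨g0, rfl⟩
    rw [this, hρ.2]
  have hts : tr ρ = tr σ := by
    funext g
    exact (htr g (e g) rfl).symm
  obtain ⟨A, Z, _, h1, h2, h3⟩ := ibc ℓ F hF L n n ρ σ hρ hσ hts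
  refine ⟨A, ⟨⟨A, Z, h1, h2⟩, rfl⟩, fun g g' hg => ?_⟩
  have : g' = e g := Subtype.ext hg
  rw [this]
  exact h3 g

theorem impJ_mul {x y : X} (hy : ∀ g, g ∈ L → y * g * y⁻¹ ∈ L)
    {A B : Matrix (Fin n) (Fin n) F} (hA : ImpJ ρ x A) (hB : ImpJ ρ y B) :
    ImpJ ρ (x * y) (A * B) := by
  refine ⟨hA.1.mul hB.1, fun g g' hg => ?_⟩
  obtain ⟨g1, hg1⟩ : ∃ g1 : L, (g1 : X) = y * g * y⁻¹ := ⟨⟨_, hy g g.2⟩, rfl⟩
  have hg' : (g' : X) = x * g1 * x⁻¹ := by rw [hg, hg1]; group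
  rw [mul_assoc, hB.2 g g1 hg1, ← mul_assoc, hA.2 g1 g' hg', mul_assoc]

/-- the implementing matrix is unique up to scalars -/
theorem impJ_scal (hρ : IsIrr ρ) {x : X} (hx : ∀ g, g ∈ L → x * g * x⁻¹ ∈ L)
    {A A' : Matrix (Fin n) (Fin n) F} (hA : ImpJ ρ x A) (hA' : ImpJ ρ x A') :
    ∃ c : F, c ≠ 0 ∧ A' = c • A := by
  have hN : NeZero n := ⟨hρ.1.ne'⟩
  obtain ⟨a, rfl⟩ := hA.1
  have h1 : ∀ g, ((a⁻¹ : (Matrix (Fin n) (Fin n) F)ˣ) : Matrix (Fin n) (Fin n) F) * A' * ρ g =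
      ρ g * (((a⁻¹ : (Matrix (Fin n) (Fin n) F)ˣ) : Matrix (Fin n) (Fin n) F) * A') := by
    intro g
    obtain ⟨g', hg'⟩ : ∃ g' : L, (g' : X) = x * g * x⁻¹ := ⟨⟨_, hx g g.2⟩, rfl⟩
    have h2 := hA.2 g g' hg'
    have h3 := hA'.2 g g' hg'
    have h4 : ((a⁻¹ : (Matrix (Fin n) (Fin n) F)ˣ) : Matrix (Fin n) (Fin n) F) * ρ g' =
        ρ g * ((a⁻¹ : (Matrix (Fin n) (Fin n) F)ˣ) : Matrix (Fin n) (Fin n) F) := by
      rw [Units.inv_mul_eq_iff_eq_mul, ← mul_assoc, h2, Units.mul_inv_cancel_right]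
    rw [mul_assoc, h3, ← mul_assoc, h4, mul_assoc]
  obtain ⟨c, hc⟩ := schur hρ _ h1
  have h5 : A' = c • (a : Matrix (Fin n) (Fin n) F) := by
    rw [Units.inv_mul_eq_iff_eq_mul] at hc
    rw [hc, Matrix.scalar_apply, ← Matrix.smul_one_eq_diagonal, Matrix.mul_smul, mul_one]
  refine ⟨c, ?_, h5⟩
  rintro rfl
  rw [zero_smul] at h5
  rw [h5] at hA'
  exact not_isUnit_zero hA'.1

/-- evaluation and conjugation of the representation -/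
theorem ev_tran {m : ℕ} {σ : L →* Matrix (Fin m) (Fin m) F} {T : Matrix (Fin m) (Fin n) F}
    (hT : ∀ h, T * ρ h = σ h * T) (v : L → F) : T * ev ρ v = ev σ v * T := by
  have := Fintype.ofFinite L
  unfold ev
  rw [finsum_eq_sum_of_fintype, finsum_eq_sum_of_fintype, Matrix.mul_sum, Matrix.sum_mul]
  apply Finset.sum_congr rfl
  intro s _
  rw [Matrix.mul_smul, Matrix.smul_mul, hT]

/-- transport of the implementing matrix to a conjugate representation -/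
theorem impJ_tran {σ : L →* Matrix (Fin n) (Fin n) F} (T : (Matrix (Fin n) (Fin n) F)ˣ)
    (hT : ∀ h, (T : Matrix (Fin n) (Fin n) F) * ρ h = σ h * T) {x : X}
    {A : Matrix (Fin n) (Fin n) F} (hA : ImpJ ρ x A) :
    ImpJ σ x (T * A * ((T⁻¹ : (Matrix (Fin n) (Fin n) F)ˣ) : Matrix (Fin n) (Fin n) F)) := by
  refine ⟨(T.isUnit.mul hA.1).mul (T⁻¹).isUnit, fun g g' hg => ?_⟩
  have h1 : ((T⁻¹ : (Matrix (Fin n) (Fin n) F)ˣ) : Matrix (Fin n) (Fin n) F) * σ g =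
      ρ g * ((T⁻¹ : (Matrix (Fin n) (Fin n) F)ˣ) : Matrix (Fin n) (Fin n) F) := by
    rw [Units.inv_mul_eq_iff_eq_mul, ← mul_assoc, hT, Units.mul_inv_cancel_right]
  rw [mul_assoc, h1, ← mul_assoc, mul_assoc (T : Matrix (Fin n) (Fin n) F), hA.2 g g' hg,
    ← mul_assoc, hT]
  simp only [mul_assoc]

end imp

section scu

variable {ℓ : ℕ} {F X : Type} [Field F] [Group X] [Finite X] {Y R S : Subgroup X} {f : X → F}

/-- the matrix `ρ(k⁻¹ Br_R(u))` -/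
def Vm (R : Subgroup X) {L : Subgroup X} {n : ℕ} (ρ : L →* Matrix (Fin n) (Fin n) F) (k : X)
    (u : X → F) : Matrix (Fin n) (Fin n) F := ev ρ (fun t : L => br R u (k * t))

theorem vm_lt {L : Subgroup X} {n : ℕ} (ρ : L →* Matrix (Fin n) (Fin n) F) (k : X)
    (u : X → F) : Vm R ρ k u = ev ρ (fun t : L => lt k⁻¹ (br R u) t) := by
  unfold Vm
  congr 1
  funext t
  show br R u (k * t) = br R u (k⁻¹⁻¹ * t)
  rw [inv_inv]

theorem vm_supp (hL : Loc ℓ Y R S) {k : X} (hk : k ∈ S) {u : X → F} (hu : CE f Y k u) :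
    ∀ t, t ∉ Y ⊓ S → lt k⁻¹ (br R u) t = 0 := by
  intro t ht
  classical
  show br R u (k⁻¹⁻¹ * t) = 0
  rw [inv_inv]
  by_cases h2 : k * t ∈ Subgroup.centralizer (R : Set X)
  · have h3 : t ∈ S := by
      have h4 := S.mul_mem (S.inv_mem hk) (hL.cent h2)
      rwa [inv_mul_cancel_left] at h4
    have h5 : t ∉ Y := fun hc => ht ⟨hc, h3⟩
    simp only [br, if_pos h2]
    apply hu.supp
    rwa [inv_mul_cancel_left]
  · simp only [br, if_neg h2]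

theorem vm_comm (hL : Loc ℓ Y R S) {k : X} {u : X → F}
    (hu : ∀ n ∈ Y, ∀ h, u (n * h * n⁻¹) = u h) {n : ℕ}
    (ρ : ↥(Y ⊓ S) →* Matrix (Fin n) (Fin n) F) (g g' : ↥(Y ⊓ S))
    (hg : (g' : X) = k⁻¹ * g * k⁻¹⁻¹) : Vm R ρ k u * ρ g = ρ g' * Vm R ρ k u := by
  have hfin := Fintype.ofFinite X
  have hfinL := Fintype.ofFinite ↥(Y ⊓ S)
  unfold Vm
  rw [ev, finsum_eq_sum_of_fintype, Finset.sum_mul, Finset.mul_sum]
  apply Fintype.sum_equiv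
    (⟨fun t => g'⁻¹ * t * g, fun t => g' * t * g⁻¹, fun t => by group, fun t => by group⟩ :
      ↥(Y ⊓ S) ≃ ↥(Y ⊓ S))
  intro t
  show br R u (k * t) • ρ t * ρ g = ρ g' * (br R u (k * ((g'⁻¹ * t * g : ↥(Y ⊓ S)) : X)) •
    ρ (g'⁻¹ * t * g))
  have h1 : ρ g' * ρ (g'⁻¹ * t * g) = ρ t * ρ g := by
    rw [← map_mul, ← map_mul]
    congr 1
    group
  rw [Matrix.mul_smul, h1, Matrix.smul_mul]
  congr 1
  show br R u (k * t) = br R u (k * ((g' : X)⁻¹ * t * g))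
  have h2 : (k * ((g' : X)⁻¹ * t * g)) = (g : X)⁻¹ * (k * t) * (g : X)⁻¹⁻¹ := by
    rw [hg]
    group
  rw [h2, br_inv hL hu _ ((Y ⊓ S).inv_mem g.2)]

theorem vm_inv (hF : GoodF ℓ F) (hf : SBlk Y f) (hY : Y.Normal) (hL : Loc ℓ Y R S) {k : X}
    (hk : k ∈ S) {u u' : X → F} (hu : IsUnitOver f Y k u u') {n : ℕ}
    {ρ : ↥(Y ⊓ S) →* Matrix (Fin n) (Fin n) F}
    (h1 : ev ρ (fun t : ↥(Y ⊓ S) => br R f t) = 1) : Vm R ρ k u * Vm R ρ k⁻¹ u' = 1 := by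
  have hkN := hL.norm hk
  have hcj : cjF k (br R u') = br R u' := by rw [← br_cj hkN, (unit_cj hf hY hu).2]
  have hff : cjF k⁻¹ (br R f) = br R f := by
    rw [← br_cj (inv_mem hkN), cjF_of_cl hf.cl]
  have h2 : mulF (lt k⁻¹ (br R u)) (lt k (br R u')) = br R f := by
    rw [← hff]
    apply toMA_injective
    rw [← br_mulF_Y hF hL hu.left.inv hu.right.inv |>.symm.trans (congrArg (br R) hu.mul)]
    rw [toMA_mulF, toMA_lt, toMA_lt, toMA_cjF, toMA_mulF]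
    have h3 : toMA (br R u') = sg k * toMA (br R u') * sg k⁻¹ := by
      rw [← toMA_cjF, hcj]
    have h4 : sg k * toMA (br R u') = toMA (br R u') * sg k := by
      have h5 := congrArg (fun w => w * sg k) h3
      simp only [mul_assoc, sg_mul, inv_mul_cancel, sg_one, mul_one] at h5
      exact h5.symm
    rw [h4, inv_inv]
    simp only [mul_assoc]
  rw [vm_lt, vm_lt, inv_inv, ← ev_res_mul ρ (vm_supp hL hk hu.left), h2, h1]

theorem comm_inv (x y : X) : (x * y * x⁻¹ * y⁻¹)⁻¹ = y * x * y⁻¹ * x⁻¹ := by group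

theorem comm_memS {x y : X} (hx : x ∈ S) (hy : y ∈ S) : x * y * x⁻¹ * y⁻¹ ∈ S :=
  S.mul_mem (S.mul_mem (S.mul_mem hx hy) (S.inv_mem hx)) (S.inv_mem hy)

/-- the scalars exist -/
theorem sc_exists (hF : GoodF ℓ F) (hf : SBlk Y f) (hY : Y.Normal) (hL : Loc ℓ Y R S) {x y : X}
    (hx : x ∈ S) (hy : y ∈ S) {u u' : X → F} (hu : IsUnitOver f Y (x * y * x⁻¹ * y⁻¹) u u')
    {φ : ↥(Y ⊓ S) → F} (hφ : φ ∈ phiS Y S f x y) : ∃ c, c ≠ 0 ∧ IsSC Y S R φ x y u c := by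
  obtain ⟨⟨n, ρ, hρ, rfl⟩, hact, htx, hty⟩ := hφ
  have hone := ev_br_one hF hf hL hρ hact
  have hk : x * y * x⁻¹ * y⁻¹ ∈ S := comm_memS hx hy
  obtain ⟨A, hA⟩ := imp_exists hF hρ (loc_norm hY hx) htx
  obtain ⟨B, hB⟩ := imp_exists hF hρ (loc_norm hY hy) hty
  have hV1 := vm_inv hF hf hY hL hk hu hone
  have hVU : IsUnit (Vm R ρ (x * y * x⁻¹ * y⁻¹) u) :=
    (Matrix.isUnit_iff_isUnit_det _).2 (by
      have h4 := congrArg Matrix.det hV1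
      rw [Matrix.det_one, Matrix.det_mul] at h4
      exact IsUnit.of_mul_eq_one _ h4)
  have hV : ImpJ ρ (x * y * x⁻¹ * y⁻¹)⁻¹ (Vm R ρ (x * y * x⁻¹ * y⁻¹) u) :=
    ⟨hVU, fun g g' hg => vm_comm hL hu.left.inv ρ g g' hg⟩
  have hM := impJ_mul (loc_norm hY (S.mul_mem hx hy)) hV (impJ_mul (loc_norm hY hy) hA hB)
  have hN := impJ_mul (loc_norm hY hx) hB hA
  have e : (x * y * x⁻¹ * y⁻¹)⁻¹ * (x * y) = y * x := by group
  rw [e] at hM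
  obtain ⟨c, hc0, hc⟩ := impJ_scal hρ (loc_norm hY (S.mul_mem hy hx)) hN hM
  exact ⟨c, hc0, n, ρ, A, B, hρ, rfl, hA, hB, hc⟩

/-- the scalars are unique -/
theorem sc_unique (hF : GoodF ℓ F) (hY : Y.Normal) {x y : X} (hx : x ∈ S) (hy : y ∈ S)
    {u : X → F} {φ : ↥(Y ⊓ S) → F} {c c' : F} (h : IsSC Y S R φ x y u c)
    (h' : IsSC Y S R φ x y u c') : c = c' := by
  obtain ⟨n, ρ, A, B, hρ, htr, hA, hB, hc⟩ := h
  obtain ⟨n', σ, A', B', hσ, htr', hA', hB', hc'⟩ := h'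
  obtain ⟨T, Z, rfl, h1, h2, h3⟩ := ibc ℓ F hF ↥(Y ⊓ S) n n' ρ σ hρ hσ (htr.trans htr'.symm)
  have hN : NeZero n := ⟨hρ.1.ne'⟩
  obtain ⟨U, hU⟩ : ∃ U : (Matrix (Fin n) (Fin n) F)ˣ, (U : Matrix (Fin n) (Fin n) F) = T :=
    ⟨⟨T, Z, h1, h2⟩, rfl⟩
  subst hU
  have hA1 := impJ_tran U h3 hA
  have hB1 := impJ_tran U h3 hB
  obtain ⟨a, ha0, ha⟩ := impJ_scal hσ (loc_norm hY hx) hA1 hA'
  obtain ⟨b, hb0, hb⟩ := impJ_scal hσ (loc_norm hY hy) hB1 hB'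
  have hev := ev_tran h3 (fun t : ↥(Y ⊓ S) => br R u (x * y * x⁻¹ * y⁻¹ * t))
  obtain ⟨V, hV⟩ : ∃ V, V = ev ρ (fun t : ↥(Y ⊓ S) => br R u (x * y * x⁻¹ * y⁻¹ * t)) := ⟨_, rfl⟩
  obtain ⟨W, hW⟩ : ∃ W, W = ev σ (fun t : ↥(Y ⊓ S) => br R u (x * y * x⁻¹ * y⁻¹ * t)) := ⟨_, rfl⟩
  rw [← hV] at hc hev
  rw [← hW] at hc' hev
  obtain ⟨Ui, hUi⟩ : ∃ Ui, Ui = ((U⁻¹ : (Matrix (Fin n) (Fin n) F)ˣ) : Matrix (Fin n) (Fin n) F) :=
    ⟨_, rfl⟩
  have hUU : Ui * (U : Matrix (Fin n) (Fin n) F) = 1 := by rw [hUi, Units.inv_mul]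
  rw [← hUi] at ha hb
  have h4 : W * (A' * B') = c • (B' * A') := by
    rw [ha, hb]
    simp only [Matrix.smul_mul, Matrix.mul_smul]
    have e1 : W * (U * A * Ui * (U * B * Ui)) = c • (U * B * Ui * (U * A * Ui)) := by
      calc W * (U * A * Ui * (U * B * Ui)) = (W * U) * A * (Ui * U) * B * Ui := by
            simp only [mul_assoc]
        _ = U * (V * (A * B)) * Ui := by rw [← hev, hUU, mul_one]; simp only [mul_assoc]
        _ = c • (U * (B * A) * Ui) := by rw [hc, Matrix.mul_smul, Matrix.smul_mul]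
        _ = c • (U * B * (Ui * U) * (A * Ui)) := by rw [hUU, mul_one]; simp only [mul_assoc]
        _ = c • (U * B * Ui * (U * A * Ui)) := by simp only [mul_assoc]
    rw [e1, smul_comm c a, smul_comm c b, smul_comm a b]
  have h5 : (c - c') • (B' * A') = 0 := by rw [sub_smul, ← h4, ← hc', sub_self]
  rcases smul_eq_zero.1 h5 with h6 | h6
  · exact sub_eq_zero.1 h6
  · exfalso
    have h7 := hB'.1.mul hA'.1
    rw [h6] at h7
    exact not_isUnit_zero h7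

theorem sc_eq (hF : GoodF ℓ F) (hY : Y.Normal) {x y : X} (hx : x ∈ S) (hy : y ∈ S)
    {u : X → F} {φ : ↥(Y ⊓ S) → F} {c : F} (h : IsSC Y S R φ x y u c) : sc Y S R φ x y u = c := by
  have he : ∃ c, IsSC Y S R φ x y u c := ⟨c, h⟩
  unfold sc
  rw [dif_pos he]
  exact sc_unique hF hY hx hy he.choose_spec h

/-- multiplication of the unit by an element of `C₁` -/
theorem sc_z (hF : GoodF ℓ F) (hf : SBlk Y f) (hL : Loc ℓ Y R S) {x y : X}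
    (hx : x ∈ S) (hy : y ∈ S) {u : X → F} (hu : CE f Y (x * y * x⁻¹ * y⁻¹) u)
    {φ : ↥(Y ⊓ S) → F} (hact : actF (fun t : ↥(Y ⊓ S) => f t) φ = φ) {z : X → F}
    (hz : CE f Y 1 z) {c : F} (h : IsSC Y S R φ x y u c) :
    IsSC Y S R φ x y (mulF z u) (lamJ f z * c) := by
  obtain ⟨n, ρ, A, B, hρ, rfl, hA, hB, hc⟩ := h
  refine ⟨n, ρ, A, B, hρ, rfl, hA, hB, ?_⟩
  have hk : x * y * x⁻¹ * y⁻¹ ∈ S := comm_memS hx hy
  have h1 : mulF z u = mulF u z := J74.C1_comm hz hu.cc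
  have h2 : Vm R ρ (x * y * x⁻¹ * y⁻¹) (mulF z u) =
      Vm R ρ (x * y * x⁻¹ * y⁻¹) u * Matrix.scalar (Fin n) (lamJ f z) := by
    rw [← J74.ev_z hF hf hL hz ρ hρ hact, vm_lt, vm_lt, ← ev_res_mul ρ (vm_supp hL hk hu), h1,
      br_mulF_Y hF hL hu.inv hz.inv]
    have h4 : lt (x * y * x⁻¹ * y⁻¹)⁻¹ (mulF (br R u) (br R z)) =
        mulF (lt (x * y * x⁻¹ * y⁻¹)⁻¹ (br R u)) (br R z) := by
      apply toMA_injective
      rw [toMA_lt, toMA_mulF, toMA_mulF, toMA_lt]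
      exact (mul_assoc _ _ _).symm
    rw [h4]
  have h3 : Vm R ρ (x * y * x⁻¹ * y⁻¹) u * (A * B) = c • (B * A) := hc
  show Vm R ρ (x * y * x⁻¹ * y⁻¹) (mulF z u) * (A * B) = (lamJ f z * c) • (B * A)
  rw [h2, Matrix.scalar_apply, ← Matrix.smul_one_eq_diagonal, Matrix.mul_smul, mul_one,
    Matrix.smul_mul, h3, smul_smul]

/-- exchange of the variables -/
theorem sc_symm (hF : GoodF ℓ F) (hf : SBlk Y f) (hY : Y.Normal) (hL : Loc ℓ Y R S) {x y : X}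
    (hx : x ∈ S) (hy : y ∈ S) {u u' : X → F} (hu : IsUnitOver f Y (x * y * x⁻¹ * y⁻¹) u u')
    {φ : ↥(Y ⊓ S) → F} (hact : actF (fun t : ↥(Y ⊓ S) => f t) φ = φ) {c : F} (hc0 : c ≠ 0)
    (h : IsSC Y S R φ x y u c) : IsSC Y S R φ y x u' c⁻¹ := by
  obtain ⟨n, ρ, A, B, hρ, rfl, hA, hB, hc⟩ := h
  refine ⟨n, ρ, B, A, hρ, rfl, hB, hA, ?_⟩
  have hk : x * y * x⁻¹ * y⁻¹ ∈ S := comm_memS hx hy
  have hone := ev_br_one hF hf hL hρ hact
  have hV1 := vm_inv hF hf hY hL hk hu hone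
  have hV2 := mul_eq_one_comm.1 hV1
  rw [comm_inv] at hV2
  have h3 : Vm R ρ (x * y * x⁻¹ * y⁻¹) u * (A * B) = c • (B * A) := hc
  show Vm R ρ (y * x * y⁻¹ * x⁻¹) u' * (B * A) = c⁻¹ • (A * B)
  have h4 : B * A = c⁻¹ • (Vm R ρ (x * y * x⁻¹ * y⁻¹) u * (A * B)) := by
    rw [h3, smul_smul, inv_mul_cancel₀ hc0, one_smul]
  rw [h4, Matrix.mul_smul, ← mul_assoc, hV2, one_mul]

/-- SCU (4.4) -/
theorem scu : ScuStmt := by
  intro ℓ F _ hF X _ _ Y hY f hf R S hL x hx y hy u u' hu φ hφ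
  obtain ⟨c, hc0, hc⟩ := sc_exists hF hf hY hL hx hy hu hφ
  have e := sc_eq hF hY hx hy hc
  rw [e]
  refine ⟨hc0, hc, fun c' hc' => sc_unique hF hY hx hy hc' hc, fun z z' hz _ _ => ?_, ?_⟩
  · exact sc_eq hF hY hx hy (sc_z hF hf hL hx hy hu.left hφ.2.1 hz hc)
  · exact sc_eq hF hY hy hx (sc_symm hF hf hY hL hx hy hu hφ.2.1 hc0 hc)

/-- the sets of characters agree -/
theorem phiS_mul {x y n m : X} (hn : n ∈ Y ⊓ S) (hm : m ∈ Y ⊓ S) :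
    phiS Y S f x y ⊆ phiS Y S f (x * n) (y * m) := by
  rintro φ ⟨hφ, hact, h1, h2⟩
  have hcl : ∀ a b : ↥(Y ⊓ S), φ (a * b * a⁻¹) = φ b := by
    obtain ⟨k, ρ, hρ, rfl⟩ := hφ
    intro a b
    show (ρ (a * b * a⁻¹)).trace = (ρ b).trace
    rw [map_mul, Matrix.trace_mul_comm, ← map_mul]
    congr 2
    group
  refine ⟨hφ, hact, fun t t' ht => ?_, fun t t' ht => ?_⟩
  · rw [← hcl ⟨n, hn⟩ t]
    apply h1
    rw [ht]
    show x * n * t * (x * n)⁻¹ = x * (n * t * n⁻¹) * x⁻¹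
    group
  · rw [← hcl ⟨m, hm⟩ t]
    apply h2
    rw [ht]
    show y * m * t * (y * m)⁻¹ = y * (m * t * m⁻¹) * y⁻¹
    group

/-- the scalars depend only on the cosets modulo `Y ∩ S` -/
theorem sc_mul (hY : Y.Normal) {x y n m : X} (hx : x ∈ S) (hy : y ∈ S) (hn : n ∈ Y ⊓ S)
    (hm : m ∈ Y ⊓ S) {u : X → F} {φ : ↥(Y ⊓ S) → F} {c : F} (h : IsSC Y S R φ x y u c) :
    IsSC Y S R φ (x * n) (y * m) u c := by
  obtain ⟨d, ρ, A, B, hρ, htr, hA, hB, hc⟩ := h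
  have hfin := Fintype.ofFinite ↥(Y ⊓ S)
  obtain ⟨n0, hn0⟩ : ∃ n0 : ↥(Y ⊓ S), (n0 : X) = n := ⟨⟨n, hn⟩, rfl⟩
  obtain ⟨m0, hm0⟩ : ∃ m0 : ↥(Y ⊓ S), (m0 : X) = m := ⟨⟨m, hm⟩, rfl⟩
  have hU : ∀ g : ↥(Y ⊓ S), IsUnit (ρ g) := by
    intro g
    refine ⟨⟨ρ g, ρ g⁻¹, ?_, ?_⟩, rfl⟩
    · rw [← map_mul, mul_inv_cancel, map_one]
    · rw [← map_mul, inv_mul_cancel, map_one]
  have hImp : ∀ g : ↥(Y ⊓ S), ImpJ ρ (g : X) (ρ g) := by
    intro g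
    refine ⟨hU g, fun t t' ht => ?_⟩
    have : t' = g * t * g⁻¹ := Subtype.ext ht
    rw [this, ← map_mul, ← map_mul]
    congr 1
    group
  have hA' : ImpJ ρ (x * n) (A * ρ n0) := by
    rw [← hn0]
    exact impJ_mul (loc_norm hY n0.2.2) hA (hImp n0)
  have hB' : ImpJ ρ (y * m) (B * ρ m0) := by
    rw [← hm0]
    exact impJ_mul (loc_norm hY m0.2.2) hB (hImp m0)
  refine ⟨d, ρ, A * ρ n0, B * ρ m0, hρ, htr, hA', hB', ?_⟩
  -- the element `q = k⁻¹ k'`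
  obtain ⟨q, hq⟩ : ∃ q : ↥(Y ⊓ S), (q : X) = (x * y * x⁻¹ * y⁻¹)⁻¹ *
      (x * n * (y * m) * (x * n)⁻¹ * (y * m)⁻¹) := by
    refine ⟨⟨_, ?_, ?_⟩, rfl⟩
    · have e : (x * y * x⁻¹ * y⁻¹)⁻¹ * (x * n * (y * m) * (x * n)⁻¹ * (y * m)⁻¹) =
          (y * x * y⁻¹ * n * (y * x * y⁻¹)⁻¹) * (y * x * m * n⁻¹ * (y * x)⁻¹) *
            (y * m⁻¹ * y⁻¹) := by group
      rw [e]
      exact Y.mul_mem (Y.mul_mem (hY.conj_mem n hn.1 _)
        (by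
          have := hY.conj_mem (m * n⁻¹) (Y.mul_mem hm.1 (Y.inv_mem hn.1)) (y * x)
          have e2 : y * x * (m * n⁻¹) * (y * x)⁻¹ = y * x * m * n⁻¹ * (y * x)⁻¹ := by group
          rwa [e2] at this)) (hY.conj_mem m⁻¹ (Y.inv_mem hm.1) y)
    · exact S.mul_mem (S.inv_mem (comm_memS hx hy))
        (comm_memS (S.mul_mem hx hn.2) (S.mul_mem hy hm.2))
  have h1 : ev ρ (fun t : ↥(Y ⊓ S) => br R u (x * n * (y * m) * (x * n)⁻¹ * (y * m)⁻¹ * t)) =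
      ρ q⁻¹ * ev ρ (fun t : ↥(Y ⊓ S) => br R u (x * y * x⁻¹ * y⁻¹ * t)) := by
    unfold ev
    rw [finsum_eq_sum_of_fintype, finsum_eq_sum_of_fintype, Finset.mul_sum]
    apply Fintype.sum_equiv (Equiv.mulLeft q)
    intro t
    show br R u (x * n * (y * m) * (x * n)⁻¹ * (y * m)⁻¹ * t) • ρ t =
      ρ q⁻¹ * (br R u (x * y * x⁻¹ * y⁻¹ * ((q * t : ↥(Y ⊓ S)) : X)) • ρ (q * t))
    rw [Matrix.mul_smul, ← map_mul, inv_mul_cancel_left]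
    congr 2
    rw [Subgroup.coe_mul, hq]
    group
  obtain ⟨V, hV⟩ : ∃ V, V = ev ρ (fun t : ↥(Y ⊓ S) => br R u (x * y * x⁻¹ * y⁻¹ * t)) := ⟨_, rfl⟩
  rw [← hV] at hc h1
  rw [h1]
  -- `y⁻¹ n y` and `x⁻¹ m x`
  have hyi := loc_norm hY (S.inv_mem hy) n hn
  have hxi := loc_norm hY (S.inv_mem hx) m hm
  obtain ⟨n1, hn1⟩ : ∃ n1 : ↥(Y ⊓ S), (n1 : X) = y⁻¹ * n * y := by
    rw [inv_inv] at hyi
    exact ⟨⟨_, hyi⟩, rfl⟩
  obtain ⟨m1, hm1⟩ : ∃ m1 : ↥(Y ⊓ S), (m1 : X) = x⁻¹ * m * x := by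
    rw [inv_inv] at hxi
    exact ⟨⟨_, hxi⟩, rfl⟩
  have h2 : ρ n0 * B = B * ρ n1 := by
    symm
    apply hB.2
    rw [hn0, hn1]
    group
  have h3 : ρ m0 * A = A * ρ m1 := by
    symm
    apply hA.2
    rw [hm0, hm1]
    group
  have hBA := impJ_mul (loc_norm hY hx) hB hA
  obtain ⟨r, hr⟩ : ∃ r : ↥(Y ⊓ S), (r : X) = (y * x)⁻¹ * (q : X)⁻¹ * (y * x) := by
    have := loc_norm hY (S.inv_mem (S.mul_mem hy hx)) _ ((Y ⊓ S).inv_mem q.2)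
    rw [inv_inv] at this
    exact ⟨⟨_, this⟩, rfl⟩
  have h4 : ρ q⁻¹ * (B * A) = B * A * ρ r := by
    symm
    apply hBA.2
    rw [hr]
    show (q : X)⁻¹ = _
    group
  have h5 : r * n1 * m0 = m1 * n0 := by
    apply Subtype.ext
    show (r : X) * n1 * m0 = m1 * n0
    rw [hr, hn1, hm0, hm1, hn0, hq]
    group
  calc ρ q⁻¹ * V * (A * ρ n0 * (B * ρ m0)) = ρ q⁻¹ * V * (A * (ρ n0 * B) * ρ m0) := by
        simp only [mul_assoc]
    _ = ρ q⁻¹ * (V * (A * B)) * (ρ n1 * ρ m0) := by rw [h2]; simp only [mul_assoc]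
    _ = c • (ρ q⁻¹ * (B * A) * (ρ n1 * ρ m0)) := by
        rw [hc, Matrix.mul_smul, Matrix.smul_mul]
    _ = c • (B * A * (ρ (r * n1 * m0))) := by
        rw [h4, map_mul, map_mul]; simp only [mul_assoc]
    _ = c • (B * (A * ρ m1) * ρ n0) := by rw [h5, map_mul]; simp only [mul_assoc]
    _ = c • (B * ρ m0 * (A * ρ n0)) := by rw [← h3]; simp only [mul_assoc]

/-- STA (4.5) -/
theorem sta : StaStmt := by
  intro ℓ F _ hF τ _ X _ _ Y hY f hf R S hL x hx y hy u u' hu n hn m hm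
  have hset : phiS Y S f (x * n) (y * m) = phiS Y S f x y := by
    apply Set.Subset.antisymm
    · have h1 := phiS_mul (f := f) (F := F) (x := x * n) (y := y * m)
        ((Y ⊓ S).inv_mem hn) ((Y ⊓ S).inv_mem hm)
      rwa [mul_inv_cancel_right, mul_inv_cancel_right] at h1
    · exact phiS_mul hn hm
  unfold SS
  rw [hset]
  apply finsum_mem_congr rfl
  intro φ hφ
  obtain ⟨c, -, hc⟩ := sc_exists hF hf hY hL hx hy hu hφ
  rw [sc_eq hF hY hx hy hc, sc_eq hF hY (S.mul_mem hx hn.2) (S.mul_mem hy hm.2)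
    (sc_mul hY hx hy hn hm hc)]

end scu

end Pool.Agent.PP.H62
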